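import Pool.Agent.helper23.F2.Spec

/-!
# MP_26dbae_co (S07735), module MT3
-/

set_option autoImplicit false

open scoped BigOperators

namespace Pool.Agent.F2

open Pool.Agent.helper23.TH

theorem MT3 : MT3_stmt := by
  classical
  intro n f h0 hlc hend
  have hex : ∃ i, i ≤ n ∧ ∀ k, k ≤ n → f k ≤ f i := by
    obtain ⟨i, hi, hmax⟩ := Finset.exists_max_image (Finset.range (n + 1)) f
      ⟨0, Finset.mem_range.2 (Nat.succ_pos n)⟩
    exact ⟨i, Nat.lt_succ_iff.1 (Finset.mem_range.1 hi), fun k hk =>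
      hmax k (Finset.mem_range.2 (Nat.lt_succ_iff.2 hk))⟩
  obtain ⟨hi, hmax⟩ := Nat.find_spec hex
  have hleast : ∀ m, m < Nat.find hex → ¬ (m ≤ n ∧ ∀ k, k ≤ n → f k ≤ f m) :=
    fun m hm => Nat.find_min hex hm
  generalize Nat.find hex = i at hi hmax hleast
  have key : f i ≤ f 0 := by
    by_contra hlt
    rw [not_le] at hlt
    have hi0 : i ≠ 0 := by
      rintro rfl
      exact lt_irrefl _ hlt
    have hin : i ≠ n := by
      rintro rfl
      rw [← hend] at hlt
      exact lt_irrefl _ hlt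
    obtain ⟨m, rfl⟩ := Nat.exists_eq_succ_of_ne_zero hi0
    have hm2 : m + 2 ≤ n := by omega
    have h1 := hlc m hm2
    have h2 : f (m + 2) ≤ f (m + 1) := hmax (m + 2) hm2
    have hpos : 0 < f (m + 1) := lt_of_le_of_lt (h0 0) hlt
    have h3 : f m * f (m + 2) ≤ f m * f (m + 1) := mul_le_mul_of_nonneg_left h2 (h0 m)
    have h4 : f (m + 1) ≤ f m := by
      have h5 : f (m + 1) * f (m + 1) ≤ f m * f (m + 1) := by
        rw [← pow_two]
        exact h1.trans h3
      exact le_of_mul_le_mul_right h5 hpos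
    exact hleast m (Nat.lt_succ_self m) ⟨by omega, fun k hk => (hmax k hk).trans h4⟩
  intro j hj
  exact (hmax j hj).trans key

end Pool.Agent.F2
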